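import Mathlib

/-!
# Jensen type inequality with multiplicities
-/

set_option autoImplicit false

namespace Pool.Agent.W469.RT.Jen

open Finset Filter Topology

/-- division of an entire function by a power of `z - a` -/
theorem div_pow {h : ℂ → ℂ} (hh : Differentiable ℂ h) (a : ℂ) (n : ℕ)
    (hn : (n : ℕ∞) ≤ analyticOrderAt h a) :
    ∃ k : ℂ → ℂ, Differentiable ℂ k ∧ ∀ z, h z = (z - a) ^ n * k z := by
  classical
  have han : AnalyticAt ℂ h a := hh.analyticAt a
  obtain ⟨g, hg, hev⟩ := (natCast_le_analyticOrderAt han).1 hn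
  let k : ℂ → ℂ := fun z => if z = a then g a else h z / (z - a) ^ n
  have hka : k a = g a := if_pos rfl
  have hkz : ∀ z, z ≠ a → k z = h z / (z - a) ^ n := fun z hz => if_neg hz
  refine ⟨k, ?_, ?_⟩
  · intro z
    by_cases hz : z = a
    · subst hz
      have h1 : k =ᶠ[𝓝 z] g := by
        filter_upwards [hev] with w hw
        by_cases hwz : w = z
        · rw [hwz, hka]
        · rw [hkz w hwz, hw, smul_eq_mul]
          have : (w - z) ^ n ≠ 0 := pow_ne_zero _ (sub_ne_zero.2 hwz)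
          field_simp
      exact h1.differentiableAt_iff.2 hg.differentiableAt
    · have h1 : k =ᶠ[𝓝 z] fun w => h w / (w - a) ^ n := by
        filter_upwards [isOpen_ne.mem_nhds hz] with w hw
        exact hkz w hw
      refine h1.differentiableAt_iff.2 ((hh z).div ?_ (pow_ne_zero _ (sub_ne_zero.2 hz)))
      fun_prop
  · intro z
    by_cases hz : z = a
    · subst hz
      rw [hka]
      have := hev.self_of_nhds
      rwa [smul_eq_mul] at this
    · rw [hkz z hz]
      have : (z - a) ^ n ≠ 0 := pow_ne_zero _ (sub_ne_zero.2 hz)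
      field_simp

theorem factor {g : ℂ → ℂ} (hg : Differentiable ℂ g) (S : Finset ℂ) :
    ∃ h : ℂ → ℂ, Differentiable ℂ h ∧
      ∀ z, g z = (∏ s ∈ S, (z - s) ^ analyticOrderNatAt g s) * h z := by
  classical
  induction S using Finset.induction_on with
  | empty => exact ⟨g, hg, fun z => by simp⟩
  | insert a S ha ih =>
    obtain ⟨h, hh, hgh⟩ := ih
    have hQ : AnalyticAt ℂ (fun z => ∏ s ∈ S, (z - s) ^ analyticOrderNatAt g s) a := by
      have : Differentiable ℂ (fun z : ℂ => ∏ s ∈ S, (z - s) ^ analyticOrderNatAt g s) := by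
        fun_prop
      exact this.analyticAt a
    have hQa : (fun z : ℂ => ∏ s ∈ S, (z - s) ^ analyticOrderNatAt g s) a ≠ 0 := by
      refine Finset.prod_ne_zero_iff.2 fun s hs => pow_ne_zero _ (sub_ne_zero.2 ?_)
      rintro rfl
      exact ha hs
    have h1 : analyticOrderAt g a = analyticOrderAt h a := by
      have e : g = (fun z => ∏ s ∈ S, (z - s) ^ analyticOrderNatAt g s) * h := by
        funext z
        exact hgh z
      have h2 := analyticOrderAt_mul hQ (hh.analyticAt a)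
      rw [← e, hQ.analyticOrderAt_eq_zero.2 hQa, zero_add] at h2
      exact h2
    have h2 : ((analyticOrderNatAt g a : ℕ) : ℕ∞) ≤ analyticOrderAt h a := by
      rw [← h1]
      exact ENat.natCast_toNat_le_self _
    obtain ⟨k, hk, hhk⟩ := div_pow hh a _ h2
    refine ⟨k, hk, fun z => ?_⟩
    rw [Finset.prod_insert ha, hgh z, hhk z]
    ring

theorem jen0 : ∀ (g : ℂ → ℂ), Differentiable ℂ g → ∀ (z1 : ℂ) (R ρ B : ℝ), 0 ≤ R → R < ρ →
    ‖z1‖ ≤ ρ → (∀ z : ℂ, ‖z‖ = ρ → ‖g z‖ ≤ B) → g z1 ≠ 0 →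
    ∀ S : Finset ℂ, (∀ s ∈ S, ‖s‖ ≤ R) →
      ‖g z1‖ * (ρ - R) ^ (∑ s ∈ S, analyticOrderNatAt g s) ≤
        (‖z1‖ + R) ^ (∑ s ∈ S, analyticOrderNatAt g s) * B := by
  intro g hg z1 R ρ B hR hRρ hz1 hB _ S hS
  obtain ⟨h, hh, hgh⟩ := factor hg S
  set n := ∑ s ∈ S, analyticOrderNatAt g s with hn
  have hρ : 0 < ρ - R := by linarith
  have hρn : 0 < (ρ - R) ^ n := pow_pos hρ n
  have h1 : ∀ z : ℂ, ‖z‖ = ρ → ‖h z‖ ≤ B / (ρ - R) ^ n := by
    intro z hz
    rw [le_div_iff₀ hρn]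
    have h2 := hB z hz
    rw [hgh z, norm_mul, norm_prod] at h2
    have h3 : (ρ - R) ^ n ≤ ∏ s ∈ S, ‖(z - s) ^ analyticOrderNatAt g s‖ := by
      rw [hn, ← Finset.prod_pow_eq_pow_sum]
      refine Finset.prod_le_prod (fun s _ => by positivity) fun s hs => ?_
      rw [norm_pow]
      refine pow_le_pow_left₀ hρ.le ?_ _
      have h4 := norm_sub_norm_le z s
      have h5 := hS s hs
      linarith
    calc ‖h z‖ * (ρ - R) ^ n ≤ ‖h z‖ * ∏ s ∈ S, ‖(z - s) ^ analyticOrderNatAt g s‖ :=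
          mul_le_mul_of_nonneg_left h3 (norm_nonneg _)
      _ = (∏ s ∈ S, ‖(z - s) ^ analyticOrderNatAt g s‖) * ‖h z‖ := mul_comm _ _
      _ ≤ B := h2
  have hρ0 : 0 < ρ := by linarith
  have h2 : ‖h z1‖ ≤ B / (ρ - R) ^ n := by
    refine Complex.norm_le_of_forall_mem_frontier_norm_le (U := Metric.ball (0 : ℂ) ρ)
      Metric.isBounded_ball hh.diffContOnCl ?_ ?_
    · intro z hz
      rw [frontier_ball _ hρ0.ne'] at hz
      exact h1 z (by simpa using hz)
    · rw [closure_ball _ hρ0.ne']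
      simpa using hz1
  rw [le_div_iff₀ hρn] at h2
  have h3 : ‖g z1‖ ≤ (‖z1‖ + R) ^ n * ‖h z1‖ := by
    rw [hgh z1, norm_mul, norm_prod]
    refine mul_le_mul_of_nonneg_right ?_ (norm_nonneg _)
    rw [hn, ← Finset.prod_pow_eq_pow_sum]
    refine Finset.prod_le_prod (fun s _ => norm_nonneg _) fun s hs => ?_
    rw [norm_pow]
    refine pow_le_pow_left₀ (norm_nonneg _) ?_ _
    exact (norm_sub_le z1 s).trans (by linarith [hS s hs])
  calc ‖g z1‖ * (ρ - R) ^ n ≤ (‖z1‖ + R) ^ n * ‖h z1‖ * (ρ - R) ^ n :=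
        mul_le_mul_of_nonneg_right h3 hρn.le
    _ = (‖z1‖ + R) ^ n * (‖h z1‖ * (ρ - R) ^ n) := by ring
    _ ≤ (‖z1‖ + R) ^ n * B := by
        refine mul_le_mul_of_nonneg_left h2 ?_
        positivity

end Pool.Agent.W469.RT.Jen
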